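import Pool.Agent.Q83.BL.Stm

/-!
# The abstract core of the nonsymmetric Balian-Low theorem (project BL)
-/

open MeasureTheory Complex
open scoped ENNReal FourierTransform

noncomputable section

namespace Q83.BL

section diff

variable {E F : Type*} [AddCommGroup E] [AddCommGroup F]

lemma fd_map (f : E →+ F) (N : ℕ) (u : ℕ → E) (i : ℕ) :
    fd N (fun j => f (u j)) i = f (fd N u i) := by
  induction N generalizing i with
  | zero => rfl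
  | succ N ih => simp only [fd, ih, map_sub]

lemma fd_shift (f : E →+ E) (N : ℕ) (u : ℕ → E) (h : ∀ j, u (j + 1) = f (u j)) (i : ℕ) :
    fd N u (i + 1) = f (fd N u i) := by
  induction N generalizing i with
  | zero => exact h i
  | succ N ih => simp only [fd, ih, map_sub]

end diff

section core

variable {Ω G H : Type} [MeasurableSpace Ω] {μ : Measure Ω} [IsProbabilityMeasure μ]
  [AddCommGroup G] [NormedAddCommGroup H] [InnerProductSpace ℂ H] [CompleteSpace H]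
  (P : Pic Ω G H μ)

/-- A one-parameter family acting on the picture. -/
structure Flow (U : ℝ → H →L[ℂ] H) : Prop where
  norm : ∀ s x, ‖U s x‖ = ‖x‖
  add : ∀ s t x, U (s + t) x = U s (U t x)
  act : ∃ (χ : ℝ → G → ℂ) (τ : ℝ → Ω ≃ᵐ Ω), (∀ s, MeasurePreserving (τ s) μ μ) ∧
    (∀ s n z, P.e n (τ s z) = χ s n * P.e n z) ∧ (∀ s n x, U s (P.T n x) = χ s n • P.T n (U s x))

variable {P}

lemma Flow.zero {U : ℝ → H →L[ℂ] H} (hU : Flow P U) (x : H) : U 0 x = x := by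
  have h1 : U 0 (U 0 x) = U 0 x := by rw [← hU.add, add_zero]
  have h2 : U 0 (U 0 x - x) = 0 := by rw [map_sub, h1, sub_self]
  have h3 : ‖U 0 x - x‖ = 0 := by rw [← hU.norm 0, h2, norm_zero]
  exact sub_eq_zero.mp (norm_eq_zero.mp h3)

lemma T_zero (x : H) : P.T 0 x = x := by
  have h1 : P.T 0 (P.T 0 x) = P.T 0 x := by rw [← P.T_add, add_zero]
  have h2 : P.T 0 (P.T 0 x - x) = 0 := by rw [map_sub, h1, sub_self]
  have h3 : ‖P.T 0 x - x‖ = 0 := by rw [← P.norm_T 0, h2, norm_zero]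
  exact sub_eq_zero.mp (norm_eq_zero.mp h3)

lemma e_zero (z : Ω) : P.e 0 z = 1 := by
  have h1 := P.add_e 0 0 z
  rw [add_zero] at h1
  have h2 : P.e 0 z ≠ 0 := by
    intro h
    have := P.norm_e 0 z
    rw [h, norm_zero] at this
    exact zero_ne_one this
  have h3 : P.e 0 z * 1 = P.e 0 z * P.e 0 z := by rw [mul_one]; exact h1
  exact (mul_left_cancel₀ h2 h3).symm

lemma symm_g : P.C.symm P.g =ᵐ[μ] fun _ => 1 := by
  have h1 : P.C.symm P.g = P.b 0 := by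
    rw [ContinuousLinearEquiv.symm_apply_eq, P.C_b, T_zero]
  rw [h1]
  filter_upwards [P.coe_b 0] with z hz
  rw [hz, e_zero]

/-- the size of the bad set -/
def bad (P : Pic Ω G H μ) (U : ℝ → H →L[ℂ] H) (s : ℝ) : ℝ :=
  μ.real {z | 1 / 2 ≤ ‖P.C.symm (U s P.g) z - 1‖}

theorem core_a (hINT : S_INT) (hARG : S_ARG) {U V : ℝ → H →L[ℂ] H} (hU : Flow P U)
    (hV : Flow P V)
    (hUV : ∀ s t x, U s (V t x) = exp (2 * Real.pi * I * ((s * t : ℝ) : ℂ)) • V t (U s x))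
    {s t : ℝ} (hs : 0 < s) (ht : 0 < t) (hst : s * t ≤ 1 / 2) :
    s * t ≤ 4 * (bad P U s + bad P V t) := by
  obtain ⟨χ, τ, hτ, hχ, hχ'⟩ := hU.act
  obtain ⟨ψ, σ, hσ, hψ, hψ'⟩ := hV.act
  obtain ⟨h1, -, h3⟩ := hINT Ω G H _ μ inferInstance _ _ _ inferInstance P (U s) (χ s) (τ s)
    (hU.norm s) (hτ s) (hχ s) (hχ' s)
  obtain ⟨k1, -, k3⟩ := hINT Ω G H _ μ inferInstance _ _ _ inferInstance P (V t) (ψ t) (σ t)
    (hV.norm t) (hσ t) (hψ t) (hψ' t)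
  have key : ∀ᵐ z ∂μ, P.C.symm (V t P.g) (τ s z) * P.C.symm (U s P.g) z =
      exp (2 * Real.pi * I * ((s * t : ℝ) : ℂ)) *
        (P.C.symm (U s P.g) (σ t z) * P.C.symm (V t P.g) z) := by
    have a1 := h1 (P.C.symm (V t P.g))
    have a2 := k1 (P.C.symm (U s P.g))
    rw [ContinuousLinearEquiv.apply_symm_apply] at a1 a2
    rw [hUV, map_smul] at a1
    filter_upwards [a1, a2, Lp.coeFn_smul (exp (2 * Real.pi * I * ((s * t : ℝ) : ℂ)))
      (P.C.symm (V t (U s P.g)))] with z b1 b2 b3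
    rw [← b1, b3, Pi.smul_apply, smul_eq_mul, b2]
  exact hARG Ω _ μ inferInstance _ _ (τ s) (σ t) (s * t)
    (Lp.stronglyMeasurable _).measurable (Lp.stronglyMeasurable _).measurable (hτ s) (hσ t)
    (mul_pos hs ht) hst h3 k3 key

theorem core_b (hINT : S_INT) (hBAD : S_BAD) {U : ℝ → H →L[ℂ] H} (hU : Flow P U)
    {N : ℕ} (hN : 1 ≤ N) :
    ∃ D : ℝ, 0 ≤ D ∧ ∀ s : ℝ, bad P U s ≤ D * ‖fd N (fun j : ℕ => U ((j : ℝ) * s) P.g) 0‖ ^ 2 := by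
  obtain ⟨J, D, hD⟩ := hBAD N (‖(P.C : Lp ℂ 2 μ →L[ℂ] H)‖ * ‖(P.C.symm : H →L[ℂ] Lp ℂ 2 μ)‖) hN
  obtain ⟨χ, τ, hτ, hχ, hχ'⟩ := hU.act
  have hstep : ∀ s : ℝ, bad P U s ≤
      D * (‖(P.C.symm : H →L[ℂ] Lp ℂ 2 μ)‖ * ‖fd N (fun j : ℕ => U ((j : ℝ) * s) P.g) 0‖) ^ 2 := by
    intro s
    set v : ℕ → H := fun j : ℕ => U ((j : ℝ) * s) P.g with hv
    have hfd : ∀ i, ‖fd N v i‖ = ‖fd N v 0‖ := by
      intro i
      induction i with
      | zero => rfl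
      | succ i ih =>
        rw [fd_shift (U s : H →L[ℂ] H).toLinearMap.toAddMonoidHom N v ?_ i]
        · rw [← ih]
          exact hU.norm s _
        · intro j
          change U (((j + 1 : ℕ) : ℝ) * s) P.g = U s (U ((j : ℝ) * s) P.g)
          rw [← hU.add]
          congr 2
          push_cast
          ring
    have h1 := hD Ω _ μ inferInstance (fun j => P.C.symm (v j)) ?_
      (‖(P.C.symm : H →L[ℂ] Lp ℂ 2 μ)‖ * ‖fd N v 0‖) ?_
    · have hset : bad P U s =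
          μ.real {z | 1 / 2 ≤ ‖(P.C.symm (v 1)) z - (P.C.symm (v 0)) z‖} := by
        have e0 : v 0 = P.g := by
          change U (((0 : ℕ) : ℝ) * s) P.g = P.g
          rw [Nat.cast_zero, zero_mul, hU.zero]
        have e1 : v 1 = U s P.g := by
          change U (((1 : ℕ) : ℝ) * s) P.g = U s P.g
          rw [Nat.cast_one, one_mul]
        rw [e0, e1, bad]
        apply measureReal_congr
        filter_upwards [symm_g (P := P)] with z hz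
        apply propext
        change (1 / 2 ≤ ‖P.C.symm (U s P.g) z - 1‖) ↔
          (1 / 2 ≤ ‖P.C.symm (U s P.g) z - P.C.symm P.g z‖)
        rw [hz]
      rw [hset]
      exact h1
    · intro j
      exact (hINT Ω G H _ μ inferInstance _ _ _ inferInstance P (U ((j : ℝ) * s))
        (χ ((j : ℝ) * s)) (τ ((j : ℝ) * s)) (hU.norm _) (hτ _) (hχ _) (hχ' _)).2.1
    · intro i _
      have e1 : fd N (fun j => P.C.symm (v j)) i = P.C.symm (fd N v i) :=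
        fd_map (P.C.symm : H →L[ℂ] Lp ℂ 2 μ).toLinearMap.toAddMonoidHom N v i
      rw [e1, ← hfd i]
      exact (P.C.symm : H →L[ℂ] Lp ℂ 2 μ).le_opNorm _
  refine ⟨|D| * ‖(P.C.symm : H →L[ℂ] Lp ℂ 2 μ)‖ ^ 2, by positivity, fun s => ?_⟩
  refine (hstep s).trans ?_
  rw [mul_pow, ← mul_assoc]
  gcongr
  exact le_abs_self D

/-- Abstract form of part (i). -/
theorem core_i (hINT : S_INT) (hARG : S_ARG) (hBAD : S_BAD) {U V : ℝ → H →L[ℂ] H}
    (hU : Flow P U) (hV : Flow P V)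
    (hUV : ∀ s t x, U s (V t x) = exp (2 * Real.pi * I * ((s * t : ℝ) : ℂ)) • V t (U s x))
    {N : ℕ} (hN : 1 ≤ N) {p q : ℝ} (hp : 1 < p) (hq : 1 < q) (hpq : 1 / p + 1 / q = 1)
    (h1 : ∀ η : ℝ, 0 < η → ∃ s₀ : ℝ, 0 < s₀ ∧ ∀ s : ℝ, 0 < |s| → |s| < s₀ →
      ‖fd N (fun j : ℕ => U ((j : ℝ) * s) P.g) 0‖ ^ 2 ≤ η * |s| ^ p)
    (h2 : ∀ η : ℝ, 0 < η → ∃ s₀ : ℝ, 0 < s₀ ∧ ∀ s : ℝ, 0 < |s| → |s| < s₀ →
      ‖fd N (fun j : ℕ => V ((j : ℝ) * s) P.g) 0‖ ^ 2 ≤ η * |s| ^ q) : False := by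
  obtain ⟨D, hD0, hD⟩ := core_b hINT hBAD hU hN
  obtain ⟨D', hD0', hD'⟩ := core_b hINT hBAD hV hN
  set η : ℝ := 1 / (8 * (D + D' + 1)) with hη
  have hη0 : 0 < η := by positivity
  obtain ⟨s₀, hs₀, hs⟩ := h1 η hη0
  obtain ⟨t₀, ht₀, ht⟩ := h2 η hη0
  have hp0 : 0 < p := by linarith
  have hq0 : 0 < q := by linarith
  -- choose ε small
  obtain ⟨ε, hε0, hε1, hε2, hε3⟩ : ∃ ε : ℝ, 0 < ε ∧ ε ≤ 1 / 2 ∧ ε ^ (1 / p) < s₀ ∧
      ε ^ (1 / q) < t₀ := by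
    refine ⟨min (1 / 2) (min ((s₀ / 2) ^ p) ((t₀ / 2) ^ q)), ?_, min_le_left _ _, ?_, ?_⟩
    · have := Real.rpow_pos_of_pos (half_pos hs₀) p
      have := Real.rpow_pos_of_pos (half_pos ht₀) q
      positivity
    · have h3 : min (1 / 2) (min ((s₀ / 2) ^ p) ((t₀ / 2) ^ q)) ≤ (s₀ / 2) ^ p :=
        (min_le_right _ _).trans (min_le_left _ _)
      have h4 : 0 ≤ min (1 / 2) (min ((s₀ / 2) ^ p) ((t₀ / 2) ^ q)) := by
        have := Real.rpow_pos_of_pos (half_pos hs₀) p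
        have := Real.rpow_pos_of_pos (half_pos ht₀) q
        positivity
      have h5 := Real.rpow_le_rpow h4 h3 (by positivity : (0:ℝ) ≤ 1 / p)
      rw [← Real.rpow_mul (by positivity), mul_one_div_cancel hp0.ne', Real.rpow_one] at h5
      linarith
    · have h3 : min (1 / 2) (min ((s₀ / 2) ^ p) ((t₀ / 2) ^ q)) ≤ (t₀ / 2) ^ q :=
        (min_le_right _ _).trans (min_le_right _ _)
      have h4 : 0 ≤ min (1 / 2) (min ((s₀ / 2) ^ p) ((t₀ / 2) ^ q)) := by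
        have := Real.rpow_pos_of_pos (half_pos hs₀) p
        have := Real.rpow_pos_of_pos (half_pos ht₀) q
        positivity
      have h5 := Real.rpow_le_rpow h4 h3 (by positivity : (0:ℝ) ≤ 1 / q)
      rw [← Real.rpow_mul (by positivity), mul_one_div_cancel hq0.ne', Real.rpow_one] at h5
      linarith
  set s : ℝ := ε ^ (1 / p)
  set t : ℝ := ε ^ (1 / q)
  have hs0 : 0 < s := Real.rpow_pos_of_pos hε0 _
  have ht0 : 0 < t := Real.rpow_pos_of_pos hε0 _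
  have hst : s * t = ε := by
    rw [← Real.rpow_add hε0, hpq, Real.rpow_one]
  have hsp : |s| ^ p = ε := by
    rw [abs_of_pos hs0, ← Real.rpow_mul hε0.le, one_div_mul_cancel hp0.ne', Real.rpow_one]
  have htq : |t| ^ q = ε := by
    rw [abs_of_pos ht0, ← Real.rpow_mul hε0.le, one_div_mul_cancel hq0.ne', Real.rpow_one]
  have b1 := hs s (by rwa [abs_of_pos hs0]) (by rwa [abs_of_pos hs0])
  have b2 := ht t (by rwa [abs_of_pos ht0]) (by rwa [abs_of_pos ht0])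
  rw [hsp] at b1
  rw [htq] at b2
  have c := core_a hINT hARG hU hV hUV hs0 ht0 (by rw [hst]; exact hε1)
  rw [hst] at c
  have d1 : bad P U s ≤ D * (η * ε) := (hD s).trans (by gcongr)
  have d2 : bad P V t ≤ D' * (η * ε) := (hD' t).trans (by gcongr)
  have e1 : ε ≤ 4 * (D + D') * η * ε := by nlinarith
  have e2 : 4 * (D + D') * η < 1 := by
    rw [hη, mul_one_div, div_lt_one (by positivity)]
    nlinarith
  nlinarith

lemma real_contra (f h : ℝ → ℝ)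
    (hA : ∀ s t : ℝ, 0 < s → 0 < t → s * t ≤ 1 / 2 → s * t ≤ 4 * (f s + h t))
    {s₁ : ℝ} (hs₁ : 0 < s₁) (hf : ∀ s, 0 < s → s < s₁ → f s ≤ 0)
    (hh : ∀ η : ℝ, 0 < η → ∃ t₀ : ℝ, 0 < t₀ ∧ ∀ t, 0 < t → t < t₀ → h t ≤ η * t) : False := by
  set s : ℝ := s₁ / 2
  have hs0 : 0 < s := half_pos hs₁
  obtain ⟨t₀, ht₀, ht⟩ := hh (s / 8) (by positivity)
  obtain ⟨t, ht0, ht1, ht2⟩ : ∃ t : ℝ, 0 < t ∧ t < t₀ ∧ s * t ≤ 1 / 2 := by
    refine ⟨min (t₀ / 2) (1 / (2 * s)), by positivity, ?_, ?_⟩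
    · exact lt_of_le_of_lt (min_le_left _ _) (half_lt_self ht₀)
    · calc s * min (t₀ / 2) (1 / (2 * s)) ≤ s * (1 / (2 * s)) := by
            gcongr; exact min_le_right _ _
        _ = 1 / 2 := by field_simp
  have h1 := hA s t hs0 ht0 ht2
  have h2 := hf s hs0 (half_lt_self hs₁)
  have h3 := ht t ht0 ht1
  have h4 : 0 < s * t := mul_pos hs0 ht0
  nlinarith

lemma bad_zero {U : ℝ → H →L[ℂ] H} {L : ℝ}
    (h1 : ∀ s : ℝ, ∀ᵐ z ∂μ, ‖P.C.symm (U s P.g) z - 1‖ ≤ L * |s|) {s : ℝ} (hs : 0 < s)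
    (hs1 : s < 1 / (2 * (|L| + 1))) : bad P U s ≤ 0 := by
  have h2 : L * |s| < 1 / 2 := by
    rw [abs_of_pos hs]
    have h3 : s * (2 * (|L| + 1)) < 1 := by
      rwa [lt_div_iff₀ (by positivity)] at hs1
    have h4 : L * s ≤ |L| * s := by gcongr; exact le_abs_self L
    nlinarith
  rw [bad]
  have : μ {z | 1 / 2 ≤ ‖P.C.symm (U s P.g) z - 1‖} = 0 := by
    rw [← compl_mem_ae_iff]
    filter_upwards [h1 s] with z hz
    change ¬ (1 / 2 ≤ ‖P.C.symm (U s P.g) z - 1‖)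
    linarith
  rw [Measure.real, this]
  simp

lemma bad_small (hINT : S_INT) (hBAD : S_BAD) {V : ℝ → H →L[ℂ] H} (hV : Flow P V)
    (h2 : ∀ η : ℝ, 0 < η → ∃ s₀ : ℝ, 0 < s₀ ∧ ∀ s : ℝ, 0 < |s| → |s| < s₀ →
      ‖fd 1 (fun j : ℕ => V ((j : ℝ) * s) P.g) 0‖ ^ 2 ≤ η * |s| ^ (1 : ℝ)) :
    ∀ η : ℝ, 0 < η → ∃ t₀ : ℝ, 0 < t₀ ∧ ∀ t, 0 < t → t < t₀ → bad P V t ≤ η * t := by
  intro η hη
  obtain ⟨D, hD0, hD⟩ := core_b hINT hBAD hV le_rfl
  obtain ⟨t₀, ht₀, ht⟩ := h2 (η / (D + 1)) (by positivity)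
  refine ⟨t₀, ht₀, fun t h3 h4 => ?_⟩
  have h5 := ht t (by rwa [abs_of_pos h3]) (by rwa [abs_of_pos h3])
  rw [Real.rpow_one, abs_of_pos h3] at h5
  calc bad P V t ≤ D * ‖fd 1 (fun j : ℕ => V ((j : ℝ) * t) P.g) 0‖ ^ 2 := hD t
    _ ≤ D * (η / (D + 1) * t) := by gcongr
    _ ≤ (D + 1) * (η / (D + 1) * t) := by gcongr; linarith
    _ = η * t := by field_simp

/-- Abstract form of part (ii). -/
theorem core_ii (hINT : S_INT) (hARG : S_ARG) (hBAD : S_BAD) {U V : ℝ → H →L[ℂ] H}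
    (hU : Flow P U) (hV : Flow P V)
    (hUV : ∀ s t x, U s (V t x) = exp (2 * Real.pi * I * ((s * t : ℝ) : ℂ)) • V t (U s x))
    (h1 : ∃ L : ℝ, ∀ s : ℝ, ∀ᵐ z ∂μ, ‖P.C.symm (U s P.g) z - 1‖ ≤ L * |s|)
    (h2 : ∀ η : ℝ, 0 < η → ∃ s₀ : ℝ, 0 < s₀ ∧ ∀ s : ℝ, 0 < |s| → |s| < s₀ →
      ‖fd 1 (fun j : ℕ => V ((j : ℝ) * s) P.g) 0‖ ^ 2 ≤ η * |s| ^ (1 : ℝ)) : False := by
  obtain ⟨L, hL⟩ := h1
  exact real_contra (bad P U) (bad P V)
    (fun s t hs ht hst => core_a hINT hARG hU hV hUV hs ht hst)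
    (s₁ := 1 / (2 * (|L| + 1))) (by positivity) (fun s hs hs1 => bad_zero hL hs hs1)
    (bad_small hINT hBAD hV h2)

/-- Abstract form of part (ii), the roles exchanged. -/
theorem core_ii' (hINT : S_INT) (hARG : S_ARG) (hBAD : S_BAD) {U V : ℝ → H →L[ℂ] H}
    (hU : Flow P U) (hV : Flow P V)
    (hUV : ∀ s t x, U s (V t x) = exp (2 * Real.pi * I * ((s * t : ℝ) : ℂ)) • V t (U s x))
    (h1 : ∃ L : ℝ, ∀ s : ℝ, ∀ᵐ z ∂μ, ‖P.C.symm (V s P.g) z - 1‖ ≤ L * |s|)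
    (h2 : ∀ η : ℝ, 0 < η → ∃ s₀ : ℝ, 0 < s₀ ∧ ∀ s : ℝ, 0 < |s| → |s| < s₀ →
      ‖fd 1 (fun j : ℕ => U ((j : ℝ) * s) P.g) 0‖ ^ 2 ≤ η * |s| ^ (1 : ℝ)) : False := by
  obtain ⟨L, hL⟩ := h1
  refine real_contra (bad P V) (bad P U)
    (fun s t hs ht hst => ?_)
    (s₁ := 1 / (2 * (|L| + 1))) (by positivity) (fun s hs hs1 => bad_zero hL hs hs1)
    (bad_small hINT hBAD hU h2)
  have := core_a hINT hARG hU hV hUV ht hs (by rwa [mul_comm])
  linarith [mul_comm s t]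

end core

end Q83.BL
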