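import Mathlib

/-!
# Basic definitions for the nonsymmetric Balian-Low theorem (project BL)
-/

open MeasureTheory Complex
open scoped ENNReal

noncomputable section

namespace Q83.BL

/-- The `N`-th forward difference of a sequence. -/
def fd {E : Type*} [AddCommGroup E] : ℕ → (ℕ → E) → ℕ → E
  | 0, u => u
  | N + 1, u => fun i => fd N u (i + 1) - fd N u i

/-- `h` is a Riesz basis: complete, with a two-sided inequality for finite sums. -/
def IsRiesz {ι H : Type*} [NormedAddCommGroup H] [InnerProductSpace ℂ H] (h : ι → H) : Prop :=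
  (Submodule.span ℂ (Set.range h)).topologicalClosure = ⊤ ∧
    ∃ A B : ℝ, 0 < A ∧ ∀ c : ι →₀ ℂ,
      A * (∑ i ∈ c.support, ‖c i‖ ^ 2) ≤ ‖∑ i ∈ c.support, c i • h i‖ ^ 2 ∧
      ‖∑ i ∈ c.support, c i • h i‖ ^ 2 ≤ B * (∑ i ∈ c.support, ‖c i‖ ^ 2)

/-- The Euclidean space of dimension `l`. -/
abbrev X (l : ℕ) := EuclideanSpace ℝ (Fin l)

/-- `L^2` of the Euclidean space. -/
abbrev HH (l : ℕ) := Lp ℂ 2 (volume : Measure (X l))

/-- The time-frequency shift of a function: `exp (2 π i n · x) f (x - m)`. -/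
def shift {l : ℕ} (m n : X l) (f : X l → ℂ) (x : X l) : ℂ :=
  exp (2 * Real.pi * I * ((∑ i, n i * x i : ℝ) : ℂ)) * f (x - m)

lemma norm_phase {l : ℕ} (n x : X l) :
    ‖exp (2 * Real.pi * I * ((∑ i, n i * x i : ℝ) : ℂ))‖ = 1 := by
  rw [Complex.norm_exp]
  simp

lemma measurable_phase {l : ℕ} (n : X l) :
    Measurable fun x : X l => exp (2 * Real.pi * I * ((∑ i, n i * x i : ℝ) : ℂ)) := by
  fun_prop

lemma memLp_shift {l : ℕ} (m n : X l) {f : X l → ℂ} (hf : MemLp f 2 volume) :
    MemLp (shift m n f) 2 volume := by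
  have h1 : MemLp (fun x => f (x - m)) 2 volume :=
    hf.comp_measurePreserving (measurePreserving_sub_right volume m)
  refine h1.of_le ?_ ?_
  · exact (measurable_phase n).aestronglyMeasurable.mul h1.1
  · filter_upwards with x
    rw [shift, norm_mul, norm_phase, one_mul]

/-- The time-frequency shift on `L^2`. -/
def tf {l : ℕ} (m n : X l) (f : HH l) : HH l :=
  (memLp_shift m n (Lp.memLp f)).toLp _

lemma coe_tf {l : ℕ} (m n : X l) (f : HH l) : tf m n f =ᵐ[volume] shift m n f :=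
  MemLp.coeFn_toLp _

end Q83.BL
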