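import Pool.Agent.Q83.BL.Def

/-!
# Symplectic lattices, the Gabor system and the weighted integrals (project BL)
-/

open MeasureTheory
open scoped ENNReal FourierTransform

noncomputable section

namespace Q83.BL

/-- Real matrices of size `2 l`, in blocks of size `l`. -/
abbrev Mat (l : ℕ) := Matrix (Fin l ⊕ Fin l) (Fin l ⊕ Fin l) ℝ

/-- The standard symplectic matrix `J`, with blocks `0`, `1`, `-1`, `0`. -/
def J (l : ℕ) : Mat l := Matrix.fromBlocks 0 1 (-1) 0

/-- `M` is symplectic: `M^T J M = J`. -/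
def IsSymplectic {l : ℕ} (M : Mat l) : Prop := M.transpose * J l * M = J l

/-- The first half of `M n`, a vector of the Euclidean space. -/
def pos {l : ℕ} (M : Mat l) (n : Fin l ⊕ Fin l → ℤ) : X l :=
  WithLp.toLp 2 fun i => ∑ j, M (Sum.inl i) j * (n j : ℝ)

/-- The second half of `M n`, a vector of the Euclidean space. -/
def freq {l : ℕ} (M : Mat l) (n : Fin l ⊕ Fin l → ℤ) : X l :=
  WithLp.toLp 2 fun i => ∑ j, M (Sum.inr i) j * (n j : ℝ)

/-- The Gabor system of `g` along the lattice `M ℤ^(2l)`. -/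
def gabor {l : ℕ} (M : Mat l) (g : X l → ℂ) (n : Fin l ⊕ Fin l → ℤ) : X l → ℂ :=
  shift (pos M n) (freq M n) g

/-- A family of functions is a Riesz basis of `L^2(μ)`. -/
def IsRieszFam {V ι : Type} [MeasurableSpace V] (μ : Measure V) (h : ι → V → ℂ) : Prop :=
  ∃ hh : ∀ i, MemLp (h i) 2 μ, IsRiesz fun i => (hh i).toLp (h i)

/-- The `L^2` Fourier transform of a square integrable function. -/
def FT {V : Type} [NormedAddCommGroup V] [InnerProductSpace ℝ V] [FiniteDimensional ℝ V]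
    [MeasurableSpace V] [BorelSpace V] (f : V → ℂ) (hf : MemLp f 2 volume) : V → ℂ :=
  (𝓕 (hf.toLp f) : Lp ℂ 2 (volume : Measure V))

/-- The integral of `|x_k|^p ‖f x‖^2`. -/
def mom {l : ℕ} (k : Fin l) (p : ℝ) (f : X l → ℂ) : ℝ≥0∞ :=
  ∫⁻ x : X l, ENNReal.ofReal (|x k| ^ p * ‖f x‖ ^ 2)

/-- `f` vanishes almost everywhere outside a ball, i.e. has compact support. -/
def HasCpt {l : ℕ} (f : X l → ℂ) : Prop := ∃ R : ℝ, ∀ᵐ x : X l, R < ‖x‖ → f x = 0

end Q83.BL
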