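import Pool.Agent.Q83.BL.Core
import Pool.Agent.Q83.BL.Lat

/-!
# Assembly of the nonsymmetric Balian-Low theorem (project BL)
-/

open MeasureTheory Complex
open scoped ENNReal FourierTransform

noncomputable section

namespace Q83.BL

variable {l : ℕ}

@[simp] lemma pos_apply (M : Matrix (Fin l ⊕ Fin l) (Fin l ⊕ Fin l) ℝ) (n : Fin l ⊕ Fin l → ℤ)
    (i : Fin l) : pos M n i = ∑ j, M (Sum.inl i) j * (n j : ℝ) := rfl

@[simp] lemma freq_apply (M : Matrix (Fin l ⊕ Fin l) (Fin l ⊕ Fin l) ℝ) (n : Fin l ⊕ Fin l → ℤ)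
    (i : Fin l) : freq M n i = ∑ j, M (Sum.inr i) j * (n j : ℝ) := rfl

/-- the time-frequency shift as a continuous linear map -/
def tfL (h : S_TF) (m n : X l) : HH l →L[ℂ] HH l :=
  (LinearIsometry.mk
    { toFun := tf m n
      map_add' := (h l).1 m n
      map_smul' := (h l).2.1 m n } ((h l).2.2.1 m n)).toContinuousLinearMap

lemma tfL_apply (h : S_TF) (m n : X l) (f : HH l) : tfL h m n f = tf m n f := rfl

lemma tf_tf (h : S_TF) (m n m' n' : X l) (f : HH l) : tf m n (tf m' n' f) =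
    exp (-(2 * Real.pi * I * ((∑ i, n' i * m i : ℝ) : ℂ))) • tf (m + m') (n + n') f :=
  (h l).2.2.2.1 m n m' n' f

lemma sum_single (k : Fin l) (s : ℝ) (x : X l) :
    ∑ i, (EuclideanSpace.single k s : X l) i * x i = s * x k := by
  simp

lemma sum_single' (k : Fin l) (s : ℝ) (x : X l) :
    ∑ i, x i * (EuclideanSpace.single k s : X l) i = x k * s := by
  simp

lemma single_add' (k : Fin l) (s t : ℝ) :
    (EuclideanSpace.single k (s + t) : X l) = EuclideanSpace.single k s + EuclideanSpace.single k t := by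
  ext i
  simp only [PiLp.single_apply, PiLp.add_apply]
  split_ifs <;> simp

lemma single_neg' (k : Fin l) (s : ℝ) :
    (EuclideanSpace.single k (-s) : X l) = -EuclideanSpace.single k s := by
  ext i
  simp only [PiLp.single_apply, PiLp.neg_apply]
  split_ifs <;> simp

/-- modulations along the coordinate `k` -/
def Um (h : S_TF) (k : Fin l) (s : ℝ) : HH l →L[ℂ] HH l := tfL h 0 (EuclideanSpace.single k s)

/-- translations along the coordinate `k` -/
def Vm (h : S_TF) (k : Fin l) (s : ℝ) : HH l →L[ℂ] HH l := tfL h (EuclideanSpace.single k s) 0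

lemma UV (h : S_TF) (k : Fin l) (s t : ℝ) (x : HH l) :
    Um h k s (Vm h k t x) = exp (2 * Real.pi * I * ((s * t : ℝ) : ℂ)) • Vm h k t (Um h k s x) := by
  simp only [Um, Vm, tfL_apply]
  rw [tf_tf h, tf_tf h, smul_smul, sum_single]
  simp only [PiLp.zero_apply, zero_mul, Finset.sum_const_zero, ofReal_zero, mul_zero, neg_zero,
    exp_zero, one_smul, add_zero, zero_add, PiLp.single_apply, if_true]
  rw [← exp_add]
  have : 2 * (Real.pi : ℂ) * I * ((s * t : ℝ) : ℂ) + -(2 * Real.pi * I * ((s * t : ℝ) : ℂ)) = 0 := by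
    ring
  rw [this, exp_zero, one_smul]

section pic

variable (M : Matrix (Fin l ⊕ Fin l) (Fin l ⊕ Fin l) ℝ) (hTF : S_TF)

lemma flowU {Ω : Type} [MeasurableSpace Ω] {μ : Measure Ω} [IsProbabilityMeasure μ]
    (P : Pic Ω (Fin l ⊕ Fin l → ℤ) (HH l) μ) (φ : (Fin l ⊕ Fin l → ℤ) → ℂ)
    (hT : ∀ n, P.T n = φ n • tfL hTF (pos M n) (freq M n))
    (τ : (Fin l ⊕ Fin l → ℝ) → Ω ≃ᵐ Ω) (hτ : ∀ a, MeasurePreserving (τ a) μ μ)
    (hτe : ∀ a n z, P.e n (τ a z) =
      exp (2 * Real.pi * I * ((∑ j, (n j : ℝ) * a j : ℝ) : ℂ)) * P.e n z) (k : Fin l) :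
    Flow P (Um hTF k) where
  norm := fun s x => (hTF l).2.2.1 _ _ _
  add := fun s t x => by
    simp only [Um, tfL_apply]
    rw [tf_tf hTF]
    simp [single_add']
  act := by
    refine ⟨fun s n => exp (2 * Real.pi * I * ((s * pos M n k : ℝ) : ℂ)),
      fun s => τ fun j => s * M (Sum.inl k) j, fun s => hτ _, fun s n z => ?_, fun s n x => ?_⟩
    · have h1 : ∑ j, (n j : ℝ) * (s * M (Sum.inl k) j) = s * pos M n k := by
        rw [pos_apply, Finset.mul_sum]
        exact Finset.sum_congr rfl fun j _ => by ring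
      rw [hτe, h1]
    · rw [hT]
      simp only [Um, smul_apply, map_smul, tfL_apply]
      rw [tf_tf hTF, tf_tf hTF, sum_single, smul_smul, smul_smul, smul_smul, add_comm (0 : X l),
        add_comm (freq M n)]
      congr 1
      simp only [PiLp.zero_apply, mul_zero, Finset.sum_const_zero, ofReal_zero, neg_zero, exp_zero,
        mul_one]
      rw [mul_comm (exp _) (φ n), mul_assoc, ← exp_add]
      have : 2 * (Real.pi : ℂ) * I * ((s * pos M n k : ℝ) : ℂ) +
          -(2 * Real.pi * I * ((s * pos M n k : ℝ) : ℂ)) = 0 := by ring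
      rw [this, exp_zero, mul_one]

lemma flowV {Ω : Type} [MeasurableSpace Ω] {μ : Measure Ω} [IsProbabilityMeasure μ]
    (P : Pic Ω (Fin l ⊕ Fin l → ℤ) (HH l) μ) (φ : (Fin l ⊕ Fin l → ℤ) → ℂ)
    (hT : ∀ n, P.T n = φ n • tfL hTF (pos M n) (freq M n))
    (τ : (Fin l ⊕ Fin l → ℝ) → Ω ≃ᵐ Ω) (hτ : ∀ a, MeasurePreserving (τ a) μ μ)
    (hτe : ∀ a n z, P.e n (τ a z) =
      exp (2 * Real.pi * I * ((∑ j, (n j : ℝ) * a j : ℝ) : ℂ)) * P.e n z) (k : Fin l) :
    Flow P (Vm hTF k) where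
  norm := fun s x => (hTF l).2.2.1 _ _ _
  add := fun s t x => by
    simp only [Vm, tfL_apply]
    rw [tf_tf hTF]
    simp [single_add']
  act := by
    refine ⟨fun s n => exp (-(2 * Real.pi * I * ((freq M n k * s : ℝ) : ℂ))),
      fun s => τ fun j => -(s * M (Sum.inr k) j), fun s => hτ _, fun s n z => ?_, fun s n x => ?_⟩
    · have h1 : ∑ j, (n j : ℝ) * (-(s * M (Sum.inr k) j)) = -(freq M n k * s) := by
        rw [freq_apply, Finset.sum_mul, ← Finset.sum_neg_distrib]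
        exact Finset.sum_congr rfl fun j _ => by ring
      rw [hτe, h1]
      congr 2
      push_cast
      ring
    · rw [hT]
      simp only [Vm, smul_apply, map_smul, tfL_apply]
      rw [tf_tf hTF, tf_tf hTF, sum_single', smul_smul, smul_smul, smul_smul, add_comm (0 : X l),
        add_comm (pos M n)]
      congr 1
      simp only [PiLp.zero_apply, zero_mul, Finset.sum_const_zero, ofReal_zero, mul_zero, neg_zero,
        exp_zero, mul_one]
      ring

end pic

section main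

/-- the commuting family and the picture -/
theorem exists_pic (hTF : S_TF) (hPHI : S_PHI) (hTOR : S_TOR) (hRIE : S_RIE) (hUNI : S_UNI)
    (M : Matrix (Fin l ⊕ Fin l) (Fin l ⊕ Fin l) ℝ)
    (hM : M.transpose * Matrix.fromBlocks 0 1 (-1) 0 * M = Matrix.fromBlocks 0 1 (-1) 0)
    (g : HH l) (hg : IsRiesz fun n : Fin l ⊕ Fin l → ℤ => tf (pos M n) (freq M n) g) :
    ∃ (Ω : Type) (_ : MeasurableSpace Ω) (μ : Measure Ω) (_ : IsProbabilityMeasure μ)
      (P : Pic Ω (Fin l ⊕ Fin l → ℤ) (HH l) μ), P.g = g ∧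
      ∀ k : Fin l, Flow P (Um hTF k) ∧ Flow P (Vm hTF k) := by
  obtain ⟨φ, hφ, hφ'⟩ := hPHI l M hM
  obtain ⟨Ω, mΩ, μ, hμ, e, b, τ, h1, h2, h3, h4, h5, h6⟩ := hTOR (Fin l ⊕ Fin l) inferInstance
  have hR := hUNI (Fin l ⊕ Fin l → ℤ) (HH l) _ _ _ φ hφ hg
  obtain ⟨C, hC⟩ := hRIE (Fin l ⊕ Fin l → ℤ) (Lp ℂ 2 μ) (HH l) _ _ inferInstance _ _ inferInstance
    b _ hR
  let P : Pic Ω (Fin l ⊕ Fin l → ℤ) (HH l) μ :=
    { e := e
      meas := h1
      norm_e := h2
      add_e := h3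
      b := b
      coe_b := h4
      T := fun n => φ n • tfL hTF (pos M n) (freq M n)
      T_add := by
        intro m n x
        simp only [smul_apply, map_smul, tfL_apply]
        rw [tf_tf hTF, smul_smul, smul_smul, hφ']
        have hp : pos M (m + n) = pos M m + pos M n := by
          ext i
          simp only [pos_apply, PiLp.add_apply, Pi.add_apply, Int.cast_add, mul_add,
            Finset.sum_add_distrib]
        have hq : freq M (m + n) = freq M m + freq M n := by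
          ext i
          simp only [freq_apply, PiLp.add_apply, Pi.add_apply, Int.cast_add, mul_add,
            Finset.sum_add_distrib]
        rw [hp, hq, mul_comm (φ m) (φ n)]
        rfl
      norm_T := by
        intro n x
        simp only [smul_apply, tfL_apply]
        rw [norm_smul, hφ, one_mul]
        exact (hTF l).2.2.1 _ _ _
      g := g
      C := C
      C_b := fun n => hC n }
  exact ⟨Ω, mΩ, μ, hμ, P, rfl, fun k => ⟨flowU M hTF P φ (fun n => rfl) τ h5 h6 k,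
    flowV M hTF P φ (fun n => rfl) τ h5 h6 k⟩⟩

lemma fourier_V (hFOU : S_FOU) (k : Fin l) (s : ℝ) (f : HH l) :
    (𝓕 (tf (EuclideanSpace.single k s) 0 f : HH l) : HH l) =
      tf 0 (EuclideanSpace.single k (-s)) (𝓕 f : HH l) := by
  rw [hFOU, single_neg']

/-- the Fourier transform as an additive map -/
def Fadd (l : ℕ) : HH l →+ HH l :=
  (MeasureTheory.Lp.fourierTransformₗᵢ (X l) ℂ).toLinearEquiv.toLinearMap.toAddMonoidHom

lemma Fadd_apply (f : HH l) : Fadd l f = (𝓕 f : HH l) := rfl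

lemma modV (hTF : S_TF) (hFOU : S_FOU) (hMOD : S_MOD) (k : Fin l) (f : HH l) (p : ℝ) (N : ℕ)
    (hp : 0 < p) (hpN : p < 2 * N)
    (hi : Integrable (fun x : X l => |x k| ^ p * ‖(𝓕 f : HH l) x‖ ^ 2) volume) (η : ℝ)
    (hη : 0 < η) : ∃ s₀ : ℝ, 0 < s₀ ∧ ∀ s : ℝ, 0 < |s| → |s| < s₀ →
      ‖fd N (fun j : ℕ => Vm hTF k ((j : ℝ) * s) f) 0‖ ^ 2 ≤ η * |s| ^ p := by
  obtain ⟨s₀, hs₀, h⟩ := hMOD l k (𝓕 f) p N hp hpN hi η hη
  refine ⟨s₀, hs₀, fun s h1 h2 => ?_⟩
  have h3 := h (-s) (by rwa [abs_neg]) (by rwa [abs_neg])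
  rw [abs_neg] at h3
  have h4 : fd N (fun j : ℕ => tf 0 (EuclideanSpace.single k ((j : ℝ) * (-s))) (𝓕 f : HH l)) 0 =
      Fadd l (fd N (fun j : ℕ => Vm hTF k ((j : ℝ) * s) f) 0) := by
    rw [← fd_map]
    congr 1
    funext j
    rw [Fadd_apply, Vm, tfL_apply, fourier_V hFOU, mul_neg]
  rw [h4, Fadd_apply, MeasureTheory.Lp.norm_fourier_eq] at h3
  exact h3

lemma integrable_of_ne_top {f : X l → ℂ} (hf : MemLp f 2 volume) (k : Fin l) (p : ℝ)
    (h : (∫⁻ x : X l, ENNReal.ofReal (|x k| ^ p * ‖f x‖ ^ 2)) ≠ ⊤) :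
    Integrable (fun x : X l => |x k| ^ p * ‖f x‖ ^ 2) volume := by
  refine (lintegral_ofReal_ne_top_iff_integrable ?_ ?_).mp h
  · have h1 : Measurable fun x : X l => |x k| ^ p := by fun_prop
    exact h1.aestronglyMeasurable.mul (hf.1.norm.pow 2)
  · exact Filter.Eventually.of_forall fun x => by positivity

lemma hasSum_congr_aux {f h : ℕ → HH l} {a : HH l} (hfh : ∀ j, f j = h j) :
    HasSum f a ↔ HasSum h a := by
  rw [funext hfh]

theorem main (hDIF : S_DIF) (hBAD : S_BAD) (hARG : S_ARG) (hRIE : S_RIE) (hINT : S_INT)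
    (hTF : S_TF) (hFOU : S_FOU) (hMOD : S_MOD) (hSER : S_SER) (hLIP : S_LIP) (hPHI : S_PHI)
    (hTOR : S_TOR) (hUNI : S_UNI)
    (M : Matrix (Fin l ⊕ Fin l) (Fin l ⊕ Fin l) ℝ)
    (hM : M.transpose * Matrix.fromBlocks 0 1 (-1) 0 * M = Matrix.fromBlocks 0 1 (-1) 0)
    (g : HH l) (hg : IsRiesz fun n : Fin l ⊕ Fin l → ℤ => tf (pos M n) (freq M n) g) (k : Fin l) :
    (∀ p q : ℝ, 1 < p → 1 < q → 1 / p + 1 / q = 1 →
      (∫⁻ x : X l, ENNReal.ofReal (|x k| ^ p * ‖g x‖ ^ 2)) = ⊤ ∨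
      (∫⁻ x : X l, ENNReal.ofReal (|x k| ^ q * ‖(𝓕 g : HH l) x‖ ^ 2)) = ⊤) ∧
    ((∃ R : ℝ, ∀ᵐ x : X l, R < ‖x‖ → g x = 0) →
      (∫⁻ x : X l, ENNReal.ofReal (|x k| * ‖(𝓕 g : HH l) x‖ ^ 2)) = ⊤) ∧
    ((∃ R : ℝ, ∀ᵐ x : X l, R < ‖x‖ → (𝓕 g : HH l) x = 0) →
      (∫⁻ x : X l, ENNReal.ofReal (|x k| * ‖g x‖ ^ 2)) = ⊤) := by
  obtain ⟨Ω, mΩ, μ, hμ, P, hPg, hP⟩ := exists_pic hTF hPHI hTOR hRIE hUNI M hM g hg
  obtain ⟨hU, hV⟩ := hP k
  have hUVr := UV hTF k
  refine ⟨fun p q hp hq hpq => ?_, ?_, ?_⟩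
  · by_contra hcon
    rw [not_or] at hcon
    obtain ⟨c1, c2⟩ := hcon
    have i1 := integrable_of_ne_top (Lp.memLp g) k p c1
    have i2 := integrable_of_ne_top (Lp.memLp (𝓕 g : HH l)) k q c2
    obtain ⟨N, hN⟩ := exists_nat_gt (max p q)
    have hNp : p < 2 * N := by linarith [le_max_left p q]
    have hNq : q < 2 * N := by linarith [le_max_right p q]
    have hN1 : 1 ≤ N := by
      have : (0 : ℝ) < N := by linarith [le_max_left p q]
      exact_mod_cast this
    refine core_i hINT hARG hBAD hU hV hUVr hN1 hp hq hpq ?_ ?_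
    · intro η hη
      rw [hPg]
      exact hMOD l k g p N (by linarith) hNp i1 η hη
    · intro η hη
      rw [hPg]
      exact modV hTF hFOU hMOD k g q N (by linarith) hNq i2 η hη
  · rintro ⟨R, hR⟩
    by_contra hcon
    have i2 := integrable_of_ne_top (Lp.memLp (𝓕 g : HH l)) k 1 (by simpa using hcon)
    obtain ⟨F, c, θ, D, s1, s2, s3⟩ := hSER l k g R hR
    obtain ⟨χ, τ, hτ, hχ, hχ'⟩ := hU.act
    have h1 := hLIP hINT Ω _ _ _ μ inferInstance _ _ _ inferInstance P (Um hTF k) χ τ hU.norm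
      hU.add hτ hχ hχ' F c θ D s1 (by rw [hPg]; exact s2) (by rw [hPg]; exact s3)
    refine core_ii hINT hARG hBAD hU hV hUVr h1 ?_
    intro η hη
    rw [hPg]
    exact modV hTF hFOU hMOD k g 1 1 one_pos (by norm_num) i2 η hη
  · rintro ⟨R, hR⟩
    by_contra hcon
    have i1 := integrable_of_ne_top (Lp.memLp g) k 1 (by simpa using hcon)
    obtain ⟨F, c, θ, D, s1, s2, s3⟩ := hSER l k (𝓕 g) R hR
    obtain ⟨χ, τ, hτ, hχ, hχ'⟩ := hV.act
    have h1 := hLIP hINT Ω _ _ _ μ inferInstance _ _ _ inferInstance P (Vm hTF k) χ τ hV.norm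
      hV.add hτ hχ hχ' (-(𝓕⁻ F : HH l)) (fun j => -c j) (fun j => -θ j) D (by simpa using s1) ?_ ?_
    · refine core_ii' hINT hARG hBAD hU hV hUVr h1 ?_
      intro η hη
      rw [hPg]
      exact hMOD l k g 1 1 one_pos (by norm_num) i1 η hη
    · rw [hPg]
      have h2 := s2.mapL (((MeasureTheory.Lp.fourierTransformₗᵢ (X l) ℂ).symm.toContinuousLinearEquiv : HH l ≃L[ℂ] HH l) : HH l →L[ℂ] HH l)
      have h3 := h2.neg
      refine (hasSum_congr_aux ?_).mpr h3
      intro j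
      have h4 : (MeasureTheory.Lp.fourierTransformₗᵢ (X l) ℂ).symm
          (tf 0 (EuclideanSpace.single k (θ j)) (𝓕 g : HH l)) =
          tf (EuclideanSpace.single k (-θ j)) 0 g := by
        rw [LinearIsometryEquiv.symm_apply_eq]
        have := fourier_V hFOU k (-θ j) g
        rw [neg_neg] at this
        exact this.symm
      change (-c j) • tf (EuclideanSpace.single k (-θ j)) 0 g =
        -((MeasureTheory.Lp.fourierTransformₗᵢ (X l) ℂ).symm
          (c j • tf 0 (EuclideanSpace.single k (θ j)) (𝓕 g : HH l)))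
      rw [map_smul, h4, neg_smul]
    · intro s
      rw [hPg]
      have h5 := s3 (-s)
      have h6 : (𝓕 (Vm hTF k s g - g - (s : ℂ) • (-(𝓕⁻ F : HH l))) : HH l) =
          tf 0 (EuclideanSpace.single k (-s)) (𝓕 g : HH l) - (𝓕 g : HH l) -
            ((-s : ℝ) : ℂ) • F := by
        rw [← Fadd_apply, map_sub, map_sub]
        have e1 : Fadd l (Vm hTF k s g) = tf 0 (EuclideanSpace.single k (-s)) (𝓕 g : HH l) := by
          rw [Fadd_apply, Vm, tfL_apply, fourier_V hFOU]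
        have e2 : Fadd l ((s : ℂ) • (-(𝓕⁻ F : HH l))) = ((-s : ℝ) : ℂ) • F := by
          have e3 : ((s : ℂ) • (-(𝓕⁻ F : HH l))) = (((-s : ℝ) : ℂ)) • (𝓕⁻ F : HH l) := by
            push_cast
            rw [smul_neg, neg_smul]
          rw [e3]
          change (MeasureTheory.Lp.fourierTransformₗᵢ (X l) ℂ) ((((-s : ℝ) : ℂ)) •
            (MeasureTheory.Lp.fourierTransformₗᵢ (X l) ℂ).symm F) = _
          rw [map_smul, LinearIsometryEquiv.apply_symm_apply]
        rw [e1, e2]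
        rfl
      rw [← MeasureTheory.Lp.norm_fourier_eq, h6]
      rw [neg_sq] at h5
      exact h5

end main

end Q83.BL
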