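import Pool.Agent.Q83.BL.Def

/-!
# Statements for the nonsymmetric Balian-Low theorem (project BL)

Every statement is a `Prop`; the docstring contains a complete proof.
-/

open MeasureTheory Complex
open scoped ENNReal FourierTransform

noncomputable section

namespace Q83.BL

/-- BL-DIF. A bounded sequence whose `N`-th differences are small over a long range has a small
first difference.

Proof. Induction on `N`, for all `K` and all `e > 0` in place of `1/2`: there are `J`, `δ > 0` with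
`‖u j‖ ≤ K` (all `j`) and `‖fd N u i‖ ≤ δ` for `i ≤ J` implies `‖u 1 - u 0‖ ≤ e`.
For `N = 1` take `J = 0`, `δ = e`. Step `N → N + 1`, `N ≥ 1`: let `(J₁, δ₁)` be the constants for
`N, K, e`. Choose a natural number `L` with `L δ₁ / 2 > 2 * 2 ^ N K` and `δ ≤ δ₁ / (2 L)`,
`J = J₁ + L`. Suppose
`‖fd (N+1) u i‖ ≤ δ` for `i ≤ J`. If `‖fd N u i₀‖ > δ₁` for some `i₀ ≤ J₁`, then for `0 ≤ r ≤ L`
`‖fd N u (i₀ + r) - fd N u i₀‖ ≤ r δ ≤ δ₁ / 2`, hence
`‖fd (N-1) u (i₀ + L) - fd (N-1) u i₀‖ = ‖∑_{r < L} fd N u (i₀ + r)‖ ≥ L δ₁ - L δ₁ / 2`, which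
exceeds `2 * 2 ^ N K`; but `‖fd M u i‖ ≤ 2 ^ M K` for all `M`, `i`. Contradiction, so the induction
hypothesis applies. -/
def S_DIF : Prop :=
  ∀ (N : ℕ) (K : ℝ), 1 ≤ N → ∃ (J : ℕ) (δ : ℝ), 0 < δ ∧ ∀ u : ℕ → ℂ, (∀ j, ‖u j‖ ≤ K) →
    (∀ i ≤ J, ‖fd N u i‖ ≤ δ) → ‖u 1 - u 0‖ < 1 / 2

/-- BL-BAD. Measure version of `S_DIF`.

Proof. Let `J`, `δ` be as in `S_DIF` for `N`, `K`. Representatives of `fd N u i` in `L^2` agree
almost everywhere with the pointwise differences `fd N (fun j => u j z) i` (induction on `N` for all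
`i`, `Lp.coeFn_sub`). So almost every `z` with `1/2 ≤ ‖u 1 z - u 0 z‖` has `‖fd N u i z‖ > δ` for
some `i ≤ J`, and by Chebyshev `μ {‖f‖ ≥ δ} ≤ δ^{-2} ‖f‖_2^2` (`meas_ge_le_lintegral_div` or
`MeasureTheory.mul_meas_ge_le_pow_eLpNorm`). Take the constant `(J+1) / δ^2`. -/
def S_BAD : Prop :=
  ∀ (N : ℕ) (K : ℝ), 1 ≤ N → ∃ (J : ℕ) (D : ℝ), ∀ (Ω : Type) (_ : MeasurableSpace Ω)
    (μ : Measure Ω) (_ : IsProbabilityMeasure μ) (u : ℕ → Lp ℂ 2 μ),
    (∀ j, ∀ᵐ z ∂μ, ‖u j z‖ ≤ K) → ∀ r : ℝ, (∀ i ≤ J, ‖fd N u i‖ ≤ r) →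
    μ.real {z | 1 / 2 ≤ ‖u 1 z - u 0 z‖} ≤ D * r ^ 2

/-- BL-ARG. The argument lemma.

Proof. Let `α = arg A`, `β = arg B` (measurable, values in `(-π, π]`). Taking arguments in the
relation: for almost every `z` there is an integer `k(z)` with
`β(τ z) + α(z) - α(σ z) - β(z) - 2 π θ = 2 π k(z)` (use `Complex.exp_log`-type facts:
`A = ‖A‖ exp (i arg A)`, moduli cancel, `Complex.exp_eq_exp_iff_exists_int`). Integrate: since `τ`, `σ`
preserve the probability measure `μ`, `∫ β∘τ = ∫ β` and `∫ α∘σ = ∫ α`, so `∫ k = -θ`. If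
`‖A z - 1‖ < 1/2`, `‖A (σ z) - 1‖ < 1/2`, `‖B z - 1‖ < 1/2`, `‖B (τ z) - 1‖ < 1/2` then all four
arguments are less than `π/6` in absolute value (`|arg w| < π/6` for `‖w - 1‖ < 1/2`; `π / 4` is
enough), so `|2 π k| < π + 2 π θ ≤ 2 π` and `k = 0`. Always `|2 π k| ≤ 4 π + 2 π θ ≤ 5 π`, so
`|k| ≤ 2`. Hence `θ = |∫ k| ≤ 2 μ {k ≠ 0} ≤ 2 (2 μ {‖A - 1‖ ≥ 1/2} + 2 μ {‖B - 1‖ ≥ 1/2})`. -/
def S_ARG : Prop :=
  ∀ (Ω : Type) (_ : MeasurableSpace Ω) (μ : Measure Ω) (_ : IsProbabilityMeasure μ)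
    (A B : Ω → ℂ) (τ σ : Ω → Ω) (θ : ℝ), Measurable A → Measurable B →
    MeasurePreserving τ μ μ → MeasurePreserving σ μ μ → 0 < θ → θ ≤ 1 / 2 →
    (∀ᵐ z ∂μ, A z ≠ 0) → (∀ᵐ z ∂μ, B z ≠ 0) →
    (∀ᵐ z ∂μ, B (τ z) * A z = exp (2 * Real.pi * I * (θ : ℂ)) * (A (σ z) * B z)) →
    θ ≤ 4 * (μ.real {z | 1 / 2 ≤ ‖A z - 1‖} + μ.real {z | 1 / 2 ≤ ‖B z - 1‖})

/-- BL-RIE. A Riesz basis is the image of a Hilbert basis under a continuous linear equivalence.

Proof. For `f` in `E` and a finite set `s` of indices put `c i = b.repr f i`. The upper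
inequality for finite sums (applied to differences of finite sets) shows that `∑ c i • h i` satisfies
the Cauchy criterion, because `∑ ‖c i‖^2` converges; so `C f = ∑' i, c i • h i` is defined, linear,
and passing to the limit in the two inequalities gives `A ‖f‖^2 ≤ ‖C f‖^2 ≤ B ‖f‖^2`. Hence `C` is
bounded, injective, with closed range (`ContinuousLinearMap` antilipschitz), and `C (b i) = h i`, so
the range is dense; `C` is bijective (`ContinuousLinearEquiv.ofBijective` or the open mapping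
theorem). An alternative: `b.repr` reduces to `E = ℓ^2`. -/
def S_RIE : Prop :=
  ∀ (ι E H : Type) (_ : NormedAddCommGroup E) (_ : InnerProductSpace ℂ E) (_ : CompleteSpace E)
    (_ : NormedAddCommGroup H) (_ : InnerProductSpace ℂ H) (_ : CompleteSpace H)
    (b : HilbertBasis ι ℂ E) (h : ι → H), IsRiesz h → ∃ C : E ≃L[ℂ] H, ∀ i, C (b i) = h i

/-- The data of a commuting family `T` on `H`, its spectral picture on `(Ω, μ)` and one unitary `U`
that commutes with `T` up to a character. -/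
structure Pic (Ω G H : Type) [MeasurableSpace Ω] (μ : Measure Ω) [AddCommGroup G]
    [NormedAddCommGroup H] [InnerProductSpace ℂ H] where
  /-- the exponentials -/
  e : G → Ω → ℂ
  meas : ∀ n, Measurable (e n)
  norm_e : ∀ n z, ‖e n z‖ = 1
  add_e : ∀ m n z, e (m + n) z = e m z * e n z
  /-- the exponentials form a Hilbert basis -/
  b : HilbertBasis G ℂ (Lp ℂ 2 μ)
  coe_b : ∀ n, b n =ᵐ[μ] e n
  /-- the commuting family -/
  T : G → H →L[ℂ] H
  T_add : ∀ m n x, T (m + n) x = T m (T n x)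
  norm_T : ∀ n x, ‖T n x‖ = ‖x‖
  /-- the window -/
  g : H
  /-- the synthesis map -/
  C : Lp ℂ 2 μ ≃L[ℂ] H
  C_b : ∀ n, C (b n) = T n g

/-- BL-INT. Intertwining: in the picture `U` is a weighted composition operator.

Proof. Write `A = C.symm (U g)` and `K = ‖C‖ ‖C.symm‖`.
Step 0: for `f` in `L^2` let `M n f` be the class of `e n * f`; then `C (M n f) = T n (C f)`:
both sides are continuous linear in `f` and agree for `f = b m` (`M n (b m) = b (n + m)` and
`T n (T m g) = T (n+m) g`), and the span of the `b m` is dense (`HilbertBasis.dense_span`).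
Step 1: for `m` in the span of the `b n`: `C.symm (U (C m)) = (m ∘ τ) A` almost everywhere. By linearity take
`m = b n`: `U (T n g) = χ n • T n (U g) = χ n • T n (C A) = χ n • C (M n A)`, so `C.symm` of it is
`χ n e n A = (e n ∘ τ) A`.
Step 2: `A` is bounded: for `m` in the span `∫ |m ∘ τ|^2 |A|^2 ≤ (K ‖m‖)^2`. Suppose `{‖A‖ > K + ε}`
has positive measure, `S = τ ({‖A‖ > K + ε})` (measurable as `τ` is a measurable equivalence). Take `m_k` in the
span with `m_k → 1_S` in `L^2`; a subsequence of `m_k ∘ τ` converges almost everywhere to `1_S ∘ τ`,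
the indicator of `{‖A‖ > K + ε}`, and Fatou gives `∫_{‖A‖ > K + ε} |A|^2 ≤ K^2 μ(S)`, contradiction.
(An alternative: truncate; or show that multiplication by the indicator of `{‖A‖ ≤ R}` works for
all bounded `m` and let `R → ∞`.)
Step 3: now `m ↦ (m ∘ τ) A` is continuous on `L^2`, so Step 1 extends to all `m`.
Step 4: `A ≠ 0` almost everywhere: with `S = τ ({A = 0})`, `m = 1_S`: `(m ∘ τ) A = 0`, so
`U (C m) = 0`, `m = 0` as `U` is isometric and `C` injective. -/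
def S_INT : Prop :=
  ∀ (Ω G H : Type) (_ : MeasurableSpace Ω) (μ : Measure Ω) (_ : IsProbabilityMeasure μ)
    (_ : AddCommGroup G) (_ : NormedAddCommGroup H) (_ : InnerProductSpace ℂ H)
    (_ : CompleteSpace H) (P : Pic Ω G H μ) (U : H →L[ℂ] H) (χ : G → ℂ) (τ : Ω ≃ᵐ Ω),
    (∀ x, ‖U x‖ = ‖x‖) → MeasurePreserving τ μ μ → (∀ n z, P.e n (τ z) = χ n * P.e n z) →
    (∀ n x, U (P.T n x) = χ n • P.T n (U x)) →
    (∀ m : Lp ℂ 2 μ, P.C.symm (U (P.C m)) =ᵐ[μ] fun z => m (τ z) * P.C.symm (U P.g) z) ∧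
    (∀ᵐ z ∂μ, ‖P.C.symm (U P.g) z‖ ≤ ‖(P.C : Lp ℂ 2 μ →L[ℂ] H)‖ * ‖(P.C.symm : H →L[ℂ] Lp ℂ 2 μ)‖) ∧
    (∀ᵐ z ∂μ, P.C.symm (U P.g) z ≠ 0)

/-- BL-TF. Basic properties of the time-frequency shifts. Proof: almost everywhere identities, using
`measurePreserving_sub_right` for compositions of almost everywhere equalities with translations. -/
def S_TF : Prop :=
  ∀ l : ℕ,
    (∀ (m n : X l) (f h : HH l), tf m n (f + h) = tf m n f + tf m n h) ∧
    (∀ (m n : X l) (c : ℂ) (f : HH l), tf m n (c • f) = c • tf m n f) ∧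
    (∀ (m n : X l) (f : HH l), ‖tf m n f‖ = ‖f‖) ∧
    (∀ (m n m' n' : X l) (f : HH l), tf m n (tf m' n' f) =
      exp (-(2 * Real.pi * I * ((∑ i, n' i * m i : ℝ) : ℂ))) • tf (m + m') (n + n') f) ∧
    (∀ f : HH l, tf 0 0 f = f)

/-- BL-FOU. The Fourier transform turns translations into modulations.

Proof. Both sides are continuous linear isometries in `f`; check on Schwartz functions, dense in
`L^2` (`SchwartzMap.denseRange_toLpCLM`, `SchwartzMap.toLp_fourier_eq`), where it is the classical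
formula for the Fourier integral (`Real.fourierIntegral_eq'`, translation invariance). A translated Schwartz
function is Schwartz; alternatively use that for integrable `f` in `L^2` both sides are given by
integrals. -/
def S_FOU : Prop :=
  ∀ (l : ℕ) (m : X l) (f : HH l), 𝓕 (tf m 0 f : HH l) = tf 0 (-m) (𝓕 f : HH l)

/-- BL-MOD. Smallness of the `N`-th differences along a modulation group.

Proof. Put `w(x) = x k`. The class `fd N (fun j => tf 0 ((j * s) e_k) f) 0` is represented by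
`(exp (2 π i s w(x)) - 1)^N f(x)` (induction on `N`:
`fd N (fun j => ...) i` is represented by `exp (2 π i s i w(x)) (exp (2 π i s w(x)) - 1)^N f(x)`). So the
square of its norm is `∫ ‖exp (2 π i s w) - 1‖^(2N) ‖f‖^2`. For `s` in `(0, 1]`, or `s` in `[-1, 0)`,
`|s|^{-p} ‖exp (2 π i s w) - 1‖^(2N) ≤ |s|^{-p} min(2, 2 π |s w|)^(2N) ≤ C |w|^p`, because `2 N ≥ p`, and
for fixed `w` it tends to `0` as `s → 0` because `2 N > p`. Dominated convergence
(`tendsto_integral_filter_of_dominated_convergence`). -/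
def S_MOD : Prop :=
  ∀ (l : ℕ) (k : Fin l) (f : HH l) (p : ℝ) (N : ℕ), 0 < p → p < 2 * N →
    Integrable (fun x : X l => |x k| ^ p * ‖f x‖ ^ 2) volume → ∀ η : ℝ, 0 < η →
    ∃ s₀ : ℝ, 0 < s₀ ∧ ∀ s : ℝ, 0 < |s| → |s| < s₀ →
      ‖fd N (fun j : ℕ => tf 0 (EuclideanSpace.single k ((j : ℝ) * s)) f) 0‖ ^ 2 ≤ η * |s| ^ p

/-- BL-SER. For a compactly supported window the derivative of the modulation group is an absolutely
convergent series of modulations.

Proof. `‖x‖ ≤ R` almost everywhere on the support (we may take `R > 0`). The triangle wave: for `|y| ≤ R`,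
put `x = 1/4 + y/(4R)`, in `[0, 1/2]`. From `hasSum_one_div_nat_pow_mul_cos` with `k = 1`:
`∑_{n ≥ 1} cos (2 π n x) / n^2 = π^2 B_2(x)` for `x` in `[0, 1]`, `B_2(x) = x^2 - x + 1/6`. Hence for `x` in
`[0, 1/2]`: `∑ (cos (2 π n (x + 1/2)) - cos (2 π n x)) / n^2 = π^2 (B_2(x+1/2) - B_2(x)) = π^2 (x - 1/4)`
`= π^2 y / (4 R)`. As `cos (2 π n (x+1/2)) = (-1)^n cos (2 π n x)` and
`2 cos (2 π n (1/4 + y/(4R))) = i^n exp (2 π i n y / (4R)) + (-i)^n exp (-2 π i n y/(4R))`, the number `2 π i y`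
is an absolutely convergent series `∑_j c_j exp (2 π i θ_j y)`, uniformly for `|y| ≤ R`, with `∑ |c_j|`
finite (index the two exponentials by `Int`, or by even and odd natural numbers). Multiply by `f`:
`F(x) = 2 π i (x k) f(x)` is in `L^2` and `F = ∑ c_j • tf 0 (θ_j e_k) f`, the series converges in `L^2` since it
converges absolutely (norms `|c_j| ‖f‖`) and its sum is identified almost everywhere (a subsequence of the finite
sums converges almost everywhere, or test the tail: `‖F - ∑_{j<n} c_j tf f‖ ≤ sup_{|y| ≤ R} |2πi y - ∑_{j<n} …| ‖f‖`).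
Last, `|exp (2 π i s y) - 1 - 2 π i s y| ≤ (2 π s y)^2` for all real `s`, `y`
(if `|2 π s y| ≤ 1` by `Complex.norm_exp_sub_one_sub_id_le`, otherwise trivial up to a constant), so
`‖tf 0 (s e_k) f - f - s • F‖ ≤ D s^2` with `D = C (2 π R)^2 ‖f‖`. -/
def S_SER : Prop :=
  ∀ (l : ℕ) (k : Fin l) (f : HH l) (R : ℝ), (∀ᵐ x : X l, R < ‖x‖ → f x = 0) →
    ∃ (F : HH l) (c : ℕ → ℂ) (θ : ℕ → ℝ) (D : ℝ), Summable (fun j => ‖c j‖) ∧
      HasSum (fun j => c j • tf 0 (EuclideanSpace.single k (θ j)) f) F ∧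
      ∀ s : ℝ, ‖tf 0 (EuclideanSpace.single k s) f - f - (s : ℂ) • F‖ ≤ D * s ^ 2

/-- BL-LIP. In the picture a window with a regular modulation group moves slowly in the sup norm.

Proof. `K = ‖C‖ ‖C.symm‖`. By `S_INT` for `U θ` (each `θ`), `‖C.symm (U θ g) z‖ ≤ K` almost everywhere. Hence
`V = C.symm F = ∑ c_j • C.symm (U (θ_j) g)` satisfies `‖V z‖ ≤ K ∑ ‖c_j‖ = M` almost everywhere (a subsequence
of the finite sums converges almost everywhere). By `S_INT` for `U θ`, `C.symm (U θ F)` is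
`V (τ_θ z) * C.symm (U θ g) z`, so bounded by `M K` almost everywhere. For `s` real and `n ≥ 1`, with `t = s / n`,
`U s g - g = ∑_{i < n} U (i t) (U t g - g) = ∑_{i < n} U (i t) (t F) + E_n`, `‖E_n‖ ≤ n D t^2 = D s^2 / n`.
The class `C.symm (∑_{i<n} U (i t) (t F))` is bounded by `n |t| M K = |s| M K` almost everywhere, and it converges
in `L^2` to `C.symm (U s g) - C.symm g` as `n → ∞`; so the limit is bounded by `|s| M K` almost everywhere. Take
`L = M K`. Note `C.symm g = b 0`, the constant function `1` almost everywhere (`T 0 = 1` on the range of `T 0`;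
precisely `C (b 0) = T 0 g` and `T 0 (T 0 g) = T 0 g` with `T 0` isometric, hence injective, so `T 0 g = g`;
`e 0 z = 1` since `e 0 z * e 0 z = e 0 z`). -/
def S_LIP : Prop :=
  S_INT → ∀ (Ω G H : Type) (_ : MeasurableSpace Ω) (μ : Measure Ω) (_ : IsProbabilityMeasure μ)
    (_ : AddCommGroup G) (_ : NormedAddCommGroup H) (_ : InnerProductSpace ℂ H)
    (_ : CompleteSpace H) (P : Pic Ω G H μ) (U : ℝ → H →L[ℂ] H) (χ : ℝ → G → ℂ)
    (τ : ℝ → Ω ≃ᵐ Ω),
    (∀ s x, ‖U s x‖ = ‖x‖) → (∀ s t x, U (s + t) x = U s (U t x)) →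
    (∀ s, MeasurePreserving (τ s) μ μ) → (∀ s n z, P.e n (τ s z) = χ s n * P.e n z) →
    (∀ s n x, U s (P.T n x) = χ s n • P.T n (U s x)) →
    ∀ (F : H) (c : ℕ → ℂ) (θ : ℕ → ℝ) (D : ℝ), Summable (fun j => ‖c j‖) →
      HasSum (fun j => c j • U (θ j) P.g) F → (∀ s : ℝ, ‖U s P.g - P.g - (s : ℂ) • F‖ ≤ D * s ^ 2) →
      ∃ L : ℝ, ∀ s : ℝ, ∀ᵐ z ∂μ, ‖P.C.symm (U s P.g) z - 1‖ ≤ L * |s|

/-- BL-PHI. The phase that makes the shifts along a symplectic lattice commute.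

Proof. Take `φ n = exp (π i (a · b - ⟨x(n), ξ(n)⟩))` with `n = (a, b)`, `x(n)`, `ξ(n)` the two halves of
`M n`. The identity to check is
`exp (π i (…(n+n') - …(n) - …(n'))) = exp (-2 π i ⟨ξ(n'), x(n)⟩)`, i.e. that
`a·b' + a'·b - ⟨x,ξ'⟩ - ⟨x',ξ⟩ + 2⟨ξ',x⟩ = (a·b' + a'·b) + (⟨x,ξ'⟩ - ⟨x',ξ⟩)` is an even integer;
and `⟨x,ξ'⟩ - ⟨ξ,x'⟩ = (Mn)^T J (Mn') = n^T J n' = a·b' - b·a'` by the symplectic relation, the sum is `2 a·b'`.
Here `J = fromBlocks 0 1 (-1) 0` and vectors are functions on `Fin l ⊕ Fin l`. -/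
def S_PHI : Prop :=
  ∀ (l : ℕ) (M : Matrix (Fin l ⊕ Fin l) (Fin l ⊕ Fin l) ℝ),
    M.transpose * Matrix.fromBlocks 0 1 (-1) 0 * M = Matrix.fromBlocks 0 1 (-1) 0 →
    ∃ φ : (Fin l ⊕ Fin l → ℤ) → ℂ, (∀ n, ‖φ n‖ = 1) ∧ ∀ n n' : Fin l ⊕ Fin l → ℤ,
      φ (n + n') = φ n * φ n' *
        exp (-(2 * Real.pi * I *
          ((∑ i : Fin l, (∑ j, M (Sum.inr i) j * (n' j : ℝ)) * (∑ j, M (Sum.inl i) j * (n j : ℝ)) : ℝ) : ℂ)))

/-- BL-TOR. The torus as the spectral picture: exponentials and translations.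

Proof. `Ω = UnitAddTorus (Fin l ⊕ Fin l)`, `μ` the Haar probability measure used in
`Mathlib/Analysis/Fourier/AddCircleMulti.lean` (the product of `AddCircle.haarAddCircle`), `e = mFourier`,
`b = mFourierBasis` (`UnitAddTorus.coe_mFourierBasis`, `coeFn_mFourierLp`), `τ a` the translation by the class of
`a` (`MeasurableEquiv.addRight`, measure preserving as `μ` is a Haar measure),
`mFourier n (z + a) = exp (2 π i ∑ n_j a_j) mFourier n z`. The universe of everything is `Type`. -/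
def S_TOR : Prop :=
  ∀ (d : Type) (_ : Fintype d), ∃ (Ω : Type) (_ : MeasurableSpace Ω) (μ : Measure Ω)
    (_ : IsProbabilityMeasure μ) (e : (d → ℤ) → Ω → ℂ) (b : HilbertBasis (d → ℤ) ℂ (Lp ℂ 2 μ))
    (τ : (d → ℝ) → Ω ≃ᵐ Ω),
    (∀ n, Measurable (e n)) ∧ (∀ n z, ‖e n z‖ = 1) ∧ (∀ m n z, e (m + n) z = e m z * e n z) ∧
    (∀ n, b n =ᵐ[μ] e n) ∧ (∀ a, MeasurePreserving (τ a) μ μ) ∧
    (∀ a n z, e n (τ a z) = exp (2 * Real.pi * I * ((∑ j, (n j : ℝ) * a j : ℝ) : ℂ)) * e n z)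

/-- BL-UNI. Multiplying the members of a Riesz basis by unimodular constants.

Proof. The span does not change (`Submodule.span` of the range, units), and the inequality for the
coefficients `c` follows from the one for `c i * φ i` (same support since `φ i ≠ 0`). -/
def S_UNI : Prop :=
  ∀ (ι H : Type) (_ : NormedAddCommGroup H) (_ : InnerProductSpace ℂ H) (h : ι → H) (φ : ι → ℂ),
    (∀ i, ‖φ i‖ = 1) → IsRiesz h → IsRiesz fun i => φ i • h i

end Q83.BL
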